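import Pool.Agent.R236.ExcD
import Pool.Agent.H852R2.TE.S.FIN

/-!
MP_75608d_al.  For a fixed number of random even permutations: with probability tending to `1`,
for every `δ > 0`, every nontrivial irreducible unitary representation `ρ` of `A_n` (of any
level and any dimension `d`) has at most `d exp(-n^{1-δ})` eigenvalues of the random walk operator
in `[1 - ε, 1]`; in particular all the nontrivial irreducible representations of dimension less
than `exp(n^{1-δ})` have spectral gap at least `ε`, and the walk on `A_n` itself has at most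
`|A_n| exp(-n^{1-δ})` eigenvalues in `[1 - ε, 1]`.
-/

namespace Pool.Agent.Results.MP_75608d_al.FewExceptionalEigenvalues
open RC14 Finset Filter Topology
open scoped InnerProductSpace

noncomputable section

section
variable {G : Type} [Group G]
variable {V : Type} [NormedAddCommGroup V] [InnerProductSpace ℂ V]

/-- the action of `g` on the vector `v` in the unitary representation `ρ` -/
def act (ρ : G →* (V ≃ₗᵢ[ℂ] V)) (g : G) (v : V) : V := ρ g v

/-- the operator of the random walk in `ρ`: `P v = (1/2k) ∑_i (ρ(x_i) v + ρ(x_i⁻¹) v)` -/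
def walkOp (ρ : G →* (V ≃ₗᵢ[ℂ] V)) {k : ℕ} (x : Fin k → G) (v : V) : V :=
  (1 / (2 * (k : ℂ))) • ∑ i, (act ρ (x i) v + act ρ (x i)⁻¹ v)

/-- `⟨P v, v⟩` -/
def quad (ρ : G →* (V ≃ₗᵢ[ℂ] V)) {k : ℕ} (x : Fin k → G) (v : V) : ℝ := (⟪walkOp ρ x v, v⟫_ℂ).re

/-- the subspace `U` is invariant -/
def Stable (ρ : G →* (V ≃ₗᵢ[ℂ] V)) (U : Submodule ℂ V) : Prop := ∀ g, ∀ v ∈ U, act ρ g v ∈ U

/-- `ρ` is irreducible -/
def IrrRep (ρ : G →* (V ≃ₗᵢ[ℂ] V)) : Prop :=
  (∃ v : V, v ≠ 0) ∧ ∀ U : Submodule ℂ V, Stable ρ U → U = ⊥ ∨ U = ⊤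

/-- `ρ` is nontrivial -/
def NontrivRep (ρ : G →* (V ≃ₗᵢ[ℂ] V)) : Prop := ∃ g v, act ρ g v ≠ v

/-- at most `η dim V` eigenvalues of `P` are `≥ 1 - ε`: every subspace on which
`⟨P v, v⟩ ≥ (1 - ε) ‖v‖²` has dimension at most `η dim V` -/
def FewIn (ε η : ℝ) (ρ : G →* (V ≃ₗᵢ[ℂ] V)) {k : ℕ} (x : Fin k → G) : Prop :=
  ∀ U : Submodule ℂ V, (∀ v ∈ U, (1 - ε) * ‖v‖ ^ 2 ≤ quad ρ x v) →
    (Module.finrank ℂ U : ℝ) ≤ η * Module.finrank ℂ V

/-- `ρ` has spectral gap at least `ε` -/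
def GapIn (ε : ℝ) (ρ : G →* (V ≃ₗᵢ[ℂ] V)) {k : ℕ} (x : Fin k → G) : Prop :=
  ∀ v : V, quad ρ x v ≤ (1 - ε) * ‖v‖ ^ 2

/-- few exceptional eigenvalues, and none if `η dim V < 1` -/
def RepOK (ε η : ℝ) (ρ : G →* (V ≃ₗᵢ[ℂ] V)) {k : ℕ} (x : Fin k → G) : Prop :=
  FewIn ε η ρ x ∧ (η * Module.finrank ℂ V < 1 → GapIn ε ρ x)

/-- the random walk operator on complex functions on `G` -/
def cwalk {k : ℕ} (x : Fin k → G) (f : G → ℂ) (g : G) : ℂ :=
  (∑ i, (f (g * x i) + f (g * (x i)⁻¹))) / (2 * k)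

/-- `⟨P f, f⟩` for a function `f` on `G` -/
def fquad [Fintype G] {k : ℕ} (x : Fin k → G) (f : G → ℂ) : ℝ :=
  (∑ g, cwalk x f g * (starRingEnd ℂ) (f g)).re

/-- at most `η |G|` eigenvalues of the random walk operator on `ℓ²(G)` are `≥ 1 - ε` -/
def FewOnGroup [Fintype G] (ε η : ℝ) {k : ℕ} (x : Fin k → G) : Prop :=
  ∀ U : Submodule ℂ (G → ℂ), (∀ f ∈ U, (1 - ε) * ∑ g, ‖f g‖ ^ 2 ≤ fquad x f) →
    (Module.finrank ℂ U : ℝ) ≤ η * Fintype.card G

/-- in every nontrivial irreducible representation at most a proportion `η` of the eigenvalues of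
`P` is `≥ 1 - ε`, none if the dimension is less than `1 / η`, and the same proportion on
`ℓ²(G)` -/
def FewExceptional [Fintype G] (ε η : ℝ) {k : ℕ} (x : Fin k → G) : Prop :=
  (∀ (V : Type) [NormedAddCommGroup V] [InnerProductSpace ℂ V] [FiniteDimensional ℂ V]
    (ρ : G →* (V ≃ₗᵢ[ℂ] V)), IrrRep ρ → NontrivRep ρ → RepOK ε η ρ x) ∧ FewOnGroup ε η x

lemma irr_iff (ρ : G →* (V ≃ₗᵢ[ℂ] V)) (h : IrrRep ρ) : Irr ρ ⊤ := by
  refine ⟨?_, fun _ _ _ => trivial, fun U _ hU => h.2 U hU⟩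
  obtain ⟨v, hv⟩ := h.1
  intro h1
  apply hv
  have : v ∈ (⊤ : Submodule ℂ V) := trivial
  rw [h1] at this
  exact (Submodule.mem_bot ℂ).1 this

end

lemma onGroup {n k : ℕ} {ε η : ℝ} {x : Fin k → Alt n}
    (h : Pool.Agent.R236.Exc.FewAbove ε η (RR n) x) : FewOnGroup ε η x := by
  classical
  intro U hU
  set e : (Alt n → ℂ) ≃ₗ[ℂ] FA n := (WithLp.linearEquiv 2 ℂ (Alt n → ℂ)).symm with he
  have hval : ∀ (f : Alt n → ℂ) (g : Alt n), (e f) g = f g := fun f g => rfl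
  have h1 := h (U.map (e : (Alt n → ℂ) →ₗ[ℂ] FA n)) (by
    rintro _ ⟨f, hf, rfl⟩
    have h2 := hU f hf
    have e1 : ‖(e : (Alt n → ℂ) →ₗ[ℂ] FA n) f‖ ^ 2 = ∑ g, ‖f g‖ ^ 2 := by
      rw [EuclideanSpace.norm_sq_eq]
      rfl
    have e2 : (⟪Pool.Agent.R236.Exc.wop (RR n) x ((e : (Alt n → ℂ) →ₗ[ℂ] FA n) f),
        (e : (Alt n → ℂ) →ₗ[ℂ] FA n) f⟫_ℂ).re = fquad x f := by
      have e3 : ∀ g, (Pool.Agent.R236.Exc.wop (RR n) x ((e : (Alt n → ℂ) →ₗ[ℂ] FA n) f)) g =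
          cwalk x f g := by
        intro g
        unfold Pool.Agent.R236.Exc.wop cwalk
        rw [PiLp.smul_apply, WithLp.ofLp_sum, Finset.sum_apply, smul_eq_mul, one_div,
          ← div_eq_inv_mul]
        congr 1
      rw [← inner_conj_symm, Complex.conj_re, PiLp.inner_apply]
      unfold fquad
      congr 1
      refine Finset.sum_congr rfl fun g _ => ?_
      rw [e3]
      rfl
    rw [e1, e2]
    exact h2)
  rw [LinearEquiv.finrank_map_eq, finrank_euclideanSpace] at h1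
  exact h1

theorem result (δ : ℝ) (hδ : 0 < δ) : ∃ k₀ : ℕ, ∀ k ≥ k₀, ∃ ε : ℝ, 0 < ε ∧
    Tendsto (fun n : ℕ =>
      (Nat.card {x : Fin k → Alt n //
        FewExceptional ε (Real.exp (-(n : ℝ) ^ (1 - δ))) x} : ℝ) /
        (Fintype.card (Alt n) : ℝ) ^ k) atTop (𝓝 1) := by
  set δ' : ℝ := min δ 1 with hδ'
  have hd0 : 0 < δ' := lt_min hδ one_pos
  have hd1 : δ' ≤ 1 := min_le_right _ _
  have hd2 : δ' ≤ δ := min_le_left _ _
  obtain ⟨k0, hk0⟩ := TE852.GAPE (1 - δ' / 4) (TE852.TEMAIN (1 - δ' / 4) (by linarith))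
  refine ⟨k0 + 1, fun k hk => ?_⟩
  obtain ⟨c', hc', B, hB, hgap⟩ := hk0 k (by omega)
  have hk1 : 1 ≤ k := by omega
  have hkpos : (0 : ℝ) < k := by exact_mod_cast hk1
  set c : ℝ := min c' 1 with hcdef
  have hc : 0 < c := lt_min hc' one_pos
  have hc1 : c ≤ 1 := min_le_right _ _
  refine ⟨c / (100 * k), by positivity, ?_⟩
  have hdet : ∀ᶠ n : ℕ in atTop, ∀ x : Fin k → Alt n,
      Good1 n (TE852.Rr (1 - δ' / 4) n) c' x →
      FewExceptional (c / (100 * k)) (Real.exp (-(n : ℝ) ^ (1 - δ))) x := by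
    filter_upwards [Pool.Agent.R236.Exc.params δ' hd0 hd1] with n hn
    obtain ⟨N, m, X, hX, hN, hNn, hn1, hNj, hr, hm, hmr, hmn, hT, hF, hη, hXN⟩ := hn
    intro x hx
    have hx' : Good1 n (TE852.Rr (1 - δ' / 4) n) c x := by
      intro j h1 h2 v hv
      refine le_trans ?_ (hx j h1 h2 v hv)
      have : c ≤ c' := min_le_left _ _
      gcongr
    have key := Pool.Agent.R236.Exc.few_of_good n k hk1 _ c (Real.exp (-(n : ℝ) ^ (1 - δ)))
      hc hc1 x hx' N m X hX hN hNn hn1 hNj hr hm hmr hmn hT hF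
      (hη.trans (by
        apply Real.exp_le_exp.mpr
        apply neg_le_neg
        apply Real.rpow_le_rpow_of_exponent_le
        · have : (1000 : ℝ) ≤ n := by exact_mod_cast hn1
          linarith
        · linarith)) hXN
    exact ⟨fun V _ _ _ ρ h1 h2 => key.1 V ρ (irr_iff ρ h1) h2, onGroup key.2⟩
  have key : ∀ ε0 : ℝ, 0 < ε0 → ∀ᶠ n : ℕ in atTop, (Nat.card {x : Fin k → Alt n //
      ¬ FewExceptional (c / (100 * k)) (Real.exp (-(n : ℝ) ^ (1 - δ))) x} : ℝ) ≤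
        ε0 * (Fintype.card (Alt n) : ℝ) ^ k := by
    intro ε0 hε0
    have hlim : ∀ᶠ n : ℕ in atTop, B / ε0 ≤ (n : ℝ) ^ (1 : ℝ) := ev_const 1 _ (by norm_num)
    filter_upwards [hgap, hdet, hlim, eventually_ge_atTop 1] with n h1 h2 h3 h4
    have hn : (0 : ℝ) < n := by exact_mod_cast h4
    rw [Real.rpow_one, div_le_iff₀ hε0] at h3
    have h5 := RC14.card_mono (fun x : Fin k → Alt n =>
      ¬ FewExceptional (c / (100 * k)) (Real.exp (-(n : ℝ) ^ (1 - δ))) x)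
      (fun x => ¬ Good1 n (TE852.Rr (1 - δ' / 4) n) c' x)
      (fun x hx h => hx (h2 x h))
    have h6 : B / (n : ℝ) ≤ ε0 := by
      rw [div_le_iff₀ hn]; linarith
    calc (Nat.card {x : Fin k → Alt n //
          ¬ FewExceptional (c / (100 * k)) (Real.exp (-(n : ℝ) ^ (1 - δ))) x} : ℝ)
        ≤ (Nat.card {x : Fin k → Alt n // ¬ Good1 n (TE852.Rr (1 - δ' / 4) n) c' x} : ℝ) := by
          exact_mod_cast h5
      _ ≤ _ := h1
      _ ≤ ε0 * (Fintype.card (Alt n) : ℝ) ^ k := by gcongr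
  have hpos : ∀ n : ℕ, (0 : ℝ) < (Fintype.card (Alt n) : ℝ) := fun n => by
    exact_mod_cast Fintype.card_pos
  refine tendsto_order.mpr ⟨fun b hb => ?_, fun b hb => ?_⟩
  · filter_upwards [key ((1 - b) / 2) (by linarith)] with n hn
    have hA := hpos n
    rw [lt_div_iff₀ (by positivity), RC14.card_compl, Fintype.card_fun, Fintype.card_fin]
    push_cast
    have hp : (0 : ℝ) < (Fintype.card (Alt n) : ℝ) ^ k := by positivity
    nlinarith
  · refine Eventually.of_forall fun n => lt_of_le_of_lt ?_ hb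
    have hA := hpos n
    rw [div_le_one (by positivity), RC14.card_compl, Fintype.card_fun, Fintype.card_fin]
    push_cast
    linarith [Nat.cast_nonneg (α := ℝ) (Nat.card {x : Fin k → Alt n //
      ¬ FewExceptional (c / (100 * k)) (Real.exp (-(n : ℝ) ^ (1 - δ))) x})]

end

end Pool.Agent.Results.MP_75608d_al.FewExceptionalEigenvalues
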