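import Pool.Agent.R236.DenE

/-!
MP_75608d_al.  For every fixed number `k ≥ 2` of random even permutations and every `ε > 0`: with
probability tending to `1`, in every nontrivial irreducible unitary representation `ρ` of `A_n`, of
any dimension `d`, all but at most `max (d^{1-c}, d exp(-n^{1/3-δ}))` of the `d` eigenvalues of the
random walk operator have absolute value less than `√(2k-1)/k + ε` (the Ramanujan bound plus `ε`).
-/

namespace Pool.Agent.Results.MP_75608d_al.RamanujanDensity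
open RC14 Finset Filter Topology
open scoped InnerProductSpace

noncomputable section

section
variable {G : Type} [Group G]
variable {V : Type} [NormedAddCommGroup V] [InnerProductSpace ℂ V]

/-- the operator of `g` in the unitary representation `ρ` -/
def act (ρ : G →* (V ≃ₗᵢ[ℂ] V)) (g : G) : V →ₗ[ℂ] V := ((ρ g).toLinearEquiv : V →ₗ[ℂ] V)

/-- the operator of the random walk in `ρ`: `P = (1/2k) ∑_i (ρ(x_i) + ρ(x_i⁻¹))` -/
def walkOp (ρ : G →* (V ≃ₗᵢ[ℂ] V)) {k : ℕ} (x : Fin k → G) : V →ₗ[ℂ] V :=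
  (1 / (2 * (k : ℂ))) • ∑ i, (act ρ (x i) + act ρ (x i)⁻¹)

/-- the subspace `U` is invariant -/
def Stable (ρ : G →* (V ≃ₗᵢ[ℂ] V)) (U : Submodule ℂ V) : Prop := ∀ g, ∀ v ∈ U, act ρ g v ∈ U

/-- `ρ` is irreducible -/
def IrrRep (ρ : G →* (V ≃ₗᵢ[ℂ] V)) : Prop :=
  (∃ v : V, v ≠ 0) ∧ ∀ U : Submodule ℂ V, Stable ρ U → U = ⊥ ∨ U = ⊤

/-- `ρ` is nontrivial -/
def NontrivRep (ρ : G →* (V ≃ₗᵢ[ℂ] V)) : Prop := ∃ g v, act ρ g v ≠ v

variable [FiniteDimensional ℂ V]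

/-- the number of eigenvalues (with multiplicity) of the self-adjoint operator `T` of absolute
value at least `θ` -/
def numLarge (T : V →ₗ[ℂ] V) (hT : T.IsSymmetric) (θ : ℝ) : ℕ :=
  (Finset.univ.filter fun i : Fin (Module.finrank ℂ V) => θ ≤ |hT.eigenvalues rfl i|).card

/-- `P` is self-adjoint, and at most `max (d^{1-c}, d exp(-X))` of its `d` eigenvalues have
absolute value at least `θ` -/
def FewLarge (θ c X : ℝ) (ρ : G →* (V ≃ₗᵢ[ℂ] V)) {k : ℕ} (x : Fin k → G) : Prop :=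
  ∃ h : (walkOp ρ x).IsSymmetric, (numLarge (walkOp ρ x) h θ : ℝ) ≤
    max ((Module.finrank ℂ V : ℝ) ^ (1 - c)) (Module.finrank ℂ V * Real.exp (-X))

omit [FiniteDimensional ℂ V] in
lemma irr_iff (ρ : G →* (V ≃ₗᵢ[ℂ] V)) (h : IrrRep ρ) : Irr ρ ⊤ := by
  refine ⟨?_, fun _ _ _ => trivial, fun U _ hU => h.2 U hU⟩
  obtain ⟨v, hv⟩ := h.1
  intro h1
  apply hv
  have : v ∈ (⊤ : Submodule ℂ V) := trivial
  rw [h1] at this
  exact (Submodule.mem_bot ℂ).1 this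

end

/-- the bound in every nontrivial irreducible representation -/
def Density {G : Type} [Group G] (θ c X : ℝ) {k : ℕ} (x : Fin k → G) : Prop :=
  ∀ (V : Type) [NormedAddCommGroup V] [InnerProductSpace ℂ V] [FiniteDimensional ℂ V]
    (ρ : G →* (V ≃ₗᵢ[ℂ] V)), IrrRep ρ → NontrivRep ρ → FewLarge θ c X ρ x

theorem result (k : ℕ) (hk : 2 ≤ k) (ε δ : ℝ) (hε : 0 < ε) (hδ : 0 < δ) (hδ1 : δ < 1 / 3) :
    ∃ c : ℝ, 0 < c ∧ Tendsto (fun n : ℕ =>
      (Nat.card {x : Fin k → alternatingGroup (Fin n) //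
        Density (Real.sqrt (2 * k - 1) / k + ε) c ((n : ℝ) ^ (1 / 3 - δ)) x} : ℝ) /
        (Fintype.card (alternatingGroup (Fin n)) : ℝ) ^ k) atTop (𝓝 1) := by
  obtain ⟨c, hc, δ', hδ'0, hδ'1, hev⟩ :=
    Pool.Agent.R236.Den.dens_ev k (by omega) ε δ hε hδ hδ1
  refine ⟨c, hc, ?_⟩
  have hE := Pool.Agent.R236.Den.EXPO3 (gk := k) δ' hδ'0 hδ'1 1
  have key : ∀ ε0 : ℝ, 0 < ε0 → ∀ᶠ n : ℕ in atTop, (Nat.card {x : Fin k → Alt n //
      ¬ Density (Real.sqrt (2 * k - 1) / k + ε) c ((n : ℝ) ^ (1 / 3 - δ)) x} : ℝ) ≤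
        ε0 * (Fintype.card (Alt n) : ℝ) ^ k := by
    intro ε0 hε0
    have hlim : ∀ᶠ n : ℕ in atTop, 1 / ε0 ≤ (n : ℝ) ^ (1 : ℝ) := ev_const 1 _ (by norm_num)
    filter_upwards [hE, hev, hlim, eventually_ge_atTop 1] with n h1 h2 h3 h4
    have hn : (0 : ℝ) < n := by exact_mod_cast h4
    rw [Real.rpow_one, div_le_iff₀ hε0] at h3
    have h5 := RC14.card_mono (fun x : Fin k → Alt n =>
      ¬ Density (Real.sqrt (2 * k - 1) / k + ε) c ((n : ℝ) ^ (1 / 3 - δ)) x)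
      (fun x => ¬ Pool.Agent.R236.Den.FewFixK n ⌊(n : ℝ) ^ (1 / 3 - δ' / 2)⌋₊
        ⌈(n : ℝ) ^ (1 - δ' / 2)⌉₊ (fun i => (x i : Equiv.Perm (Fin n))))
      (fun x hx h => hx fun V _ _ _ ρ h6 h7 =>
        ⟨Pool.Agent.R236.Den.PX_symm ρ x, h2 x h V ρ (irr_iff ρ h6) h7⟩)
    rw [pow_one] at h1
    have h8 : (Nat.card {x : Fin k → Alt n //
        ¬ Density (Real.sqrt (2 * k - 1) / k + ε) c ((n : ℝ) ^ (1 / 3 - δ)) x} : ℝ) * n ≤
        (Fintype.card (Alt n) : ℝ) ^ k := by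
      refine le_trans ?_ h1
      gcongr
    have hA : (0 : ℝ) ≤ (Fintype.card (Alt n) : ℝ) ^ k := by positivity
    have hC : (0 : ℝ) ≤ (Nat.card {x : Fin k → Alt n //
        ¬ Density (Real.sqrt (2 * k - 1) / k + ε) c ((n : ℝ) ^ (1 / 3 - δ)) x} : ℝ) :=
      Nat.cast_nonneg _
    nlinarith [mul_le_mul_of_nonneg_left h3 hC, mul_le_mul_of_nonneg_left h8 hε0.le]
  have hpos : ∀ n : ℕ, (0 : ℝ) < (Fintype.card (Alt n) : ℝ) := fun n => by
    exact_mod_cast Fintype.card_pos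
  refine tendsto_order.mpr ⟨fun b hb => ?_, fun b hb => ?_⟩
  · filter_upwards [key ((1 - b) / 2) (by linarith)] with n hn
    have hA := hpos n
    rw [lt_div_iff₀ (by positivity), RC14.card_compl, Fintype.card_fun, Fintype.card_fin]
    push_cast
    have hp : (0 : ℝ) < (Fintype.card (Alt n) : ℝ) ^ k := by positivity
    nlinarith
  · refine Eventually.of_forall fun n => lt_of_le_of_lt ?_ hb
    have hA := hpos n
    rw [div_le_one (by positivity), RC14.card_compl, Fintype.card_fun, Fintype.card_fin]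
    push_cast
    linarith [Nat.cast_nonneg (α := ℝ) (Nat.card {x : Fin k → Alt n //
      ¬ Density (Real.sqrt (2 * k - 1) / k + ε) c ((n : ℝ) ^ (1 / 3 - δ)) x})]

end

end Pool.Agent.Results.MP_75608d_al.RamanujanDensity
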