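import Pool.Agent.R352.LR.C
import Pool.Agent.Results.MP_75608d_al.GapAllTuples

set_option autoImplicit false

/-!
# Random even permutations: a gap in all representations of small dimension

Let `δ > 0`, `k ≥ k₀(δ)` and let `x_1, …, x_k` be random elements of `A_n`. With probability tending
to `1` the averaging operator of `x_i, x_i⁻¹` has a gap `ε`, the same for all `n`, in all orthogonal
representations of `A_n` of dimension at most `exp (n ^ (1 - δ))`, in all its transitive actions on at
most `exp (n ^ (1 - δ))` points, and on all functions on `A_n` whose left translates span a space of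
dimension at most `exp (n ^ (1 - δ))`. Every eigenvalue greater than `1 - ε` of the random walk on
`A_n`, other than the trivial one, has multiplicity greater than `exp (n ^ (1 - δ))`. So if the
generators are not `ε`-expanding, then the second eigenvalue has at least this multiplicity.

Proof. A nonzero complex representation of dimension less than `2 ^ (j + 1)` of `A_m`, `m ≥ 3 j + 5`,
has a nonzero vector fixed by the pointwise stabiliser of `3 j` points: a three-cycle `z` acts either
as a scalar, and then `A_m` acts trivially, or the kernel or the image of `z - c`, `c` an eigenvalue,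
is a nonzero space of at most half the dimension which is invariant under `A_(m - 3)`. So every left
invariant space of functions on `A_n` of dimension less than `2 ^ (j + 1)` consists of functions of
level at most `3 j`, for which the starting result `GapAllTuples` gives the gap.
-/

namespace Pool.Agent.Results.MP_75608d_al.SmallRepresentations

open RC14 Finset Filter Topology Module

noncomputable section

/-- the span of the left translates `g ↦ f (h g)` of `f` -/
def translates {n : ℕ} (f : Alt n → ℝ) : Submodule ℝ (Alt n → ℝ) :=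
  Submodule.span ℝ (Set.range fun h : Alt n => fun g : Alt n => f (h * g))

/-- `(1 / 2k) ∑_i (ρ(x_i) v + ρ(x_i)⁻¹ v)` for an orthogonal representation `ρ` -/
def repWalk {n k : ℕ} {V : Type} [NormedAddCommGroup V] [InnerProductSpace ℝ V]
    (x : Fin k → Alt n) (ρ : Alt n →* (V ≃ₗᵢ[ℝ] V)) (v : V) : V :=
  (1 / (2 * k) : ℝ) • ∑ i, (ρ (x i) v + ρ (x i)⁻¹ v)

/-- the averaging operator `(1 / 2k) ∑_i (f (x_i y) + f (x_i⁻¹ y))` of the Schreier graph of an
action of `A_n` on `Y` -/
def actWalk {n k : ℕ} {Y : Type} [MulAction (Alt n) Y] (x : Fin k → Alt n) (f : Y → ℝ)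
    (y : Y) : ℝ :=
  (∑ i, (f (x i • y) + f ((x i)⁻¹ • y))) / (2 * k)

/-- the eigenspace `{f | P f = μ f}` of the random walk `P = walk x` on `A_n` -/
def eigenspace {n k : ℕ} (x : Fin k → Alt n) (μ : ℝ) : Submodule ℝ (Alt n → ℝ) :=
  Module.End.eigenspace (Pool.Agent.R352.LR.walkHom x) μ

lemma mem_eigenspace {n k : ℕ} (x : Fin k → Alt n) (μ : ℝ) (f : Alt n → ℝ) :
    f ∈ eigenspace x μ ↔ walk x f = μ • f :=
  Module.End.mem_eigenspace_iff

/-- the four properties:

* `⟨v, P v⟩ ≤ (1 - ε) ‖v‖²` in every real orthogonal representation of `A_n` of dimension at most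
  `D`, for all `v` orthogonal to the invariant vectors;
* the same for all functions of sum zero on `Y`, for every transitive action of `A_n` on a set `Y`
  with at most `D` elements;
* the same for all functions of sum zero on `A_n` whose left translates span a space of dimension
  at most `D`;
* if `μ > 1 - ε` is an eigenvalue of the random walk on `A_n`, with an eigenfunction `f ≠ 0` of sum
  zero, then the dimension of the eigenspace is greater than `D`. -/
def SmallGap (n : ℕ) {k : ℕ} (D ε : ℝ) (x : Fin k → Alt n) : Prop :=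
  (∀ (V : Type) [NormedAddCommGroup V] [InnerProductSpace ℝ V] [FiniteDimensional ℝ V]
    (ρ : Alt n →* (V ≃ₗᵢ[ℝ] V)), (finrank ℝ V : ℝ) ≤ D →
    ∀ v : V, (∀ w, (∀ g, ρ g w = w) → inner ℝ w v = 0) →
      inner ℝ v (repWalk x ρ v) ≤ (1 - ε) * ‖v‖ ^ 2) ∧
  (∀ (Y : Type) [Fintype Y] [MulAction (Alt n) Y] [MulAction.IsPretransitive (Alt n) Y],
    (Fintype.card Y : ℝ) ≤ D → ∀ f : Y → ℝ, ∑ y, f y = 0 →
      ∑ y, f y * actWalk x f y ≤ (1 - ε) * ∑ y, f y ^ 2) ∧
  (∀ f : Alt n → ℝ, (finrank ℝ (translates f) : ℝ) ≤ D → ∑ g, f g = 0 →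
    ∑ g, f g * walk x f g ≤ (1 - ε) * ∑ g, f g ^ 2) ∧
  ∀ μ : ℝ, 1 - ε < μ → ∀ f : Alt n → ℝ, f ≠ 0 → ∑ g, f g = 0 → walk x f = μ • f →
    D < finrank ℝ (eigenspace x μ)

lemma smallGap_of_funGap {n k : ℕ} {D ε : ℝ} {x : Fin k → Alt n}
    (h : Pool.Agent.R352.LR.FunGap D ε x) : SmallGap n D ε x :=
  ⟨fun _ _ _ _ ρ hD v hv => Pool.Agent.R352.LR.rep_gap h ρ hD v hv,
    fun _ _ _ _ hY f hf => Pool.Agent.R352.LR.act_gap h hY f hf,
    h,
    fun μ hμ f hf hf0 hfμ => Pool.Agent.R352.LR.mult_gap h μ hμ f hf hf0 hfμ⟩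

lemma funGap_of_gapUpTo {n k m j : ℕ} {D ε : ℝ} {x : Fin k → Alt n}
    (hn : 3 * j + 5 ≤ n) (hm : 3 * j ≤ m) (hD : D < 2 ^ (j + 1))
    (h : GapAllTuples.GapUpTo n m ε x) : Pool.Agent.R352.LR.FunGap D ε x := by
  intro f hf hf0
  refine h.1 f ?_ hf0
  apply Pool.Agent.R352.LR.lowLevel_mono hm
  have h1 : finrank ℝ (Pool.Agent.R352.LR.translates f) < 2 ^ (j + 1) := by
    have : ((finrank ℝ (Pool.Agent.R352.LR.translates f) : ℕ) : ℝ) < ((2 ^ (j + 1) : ℕ) : ℝ) := by
      push_cast
      exact lt_of_le_of_lt hf hD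
    exact_mod_cast this
  exact Pool.Agent.R352.LR.le_lowLevel hn _ (Pool.Agent.R352.LR.translates_leftInv f) h1
    (Pool.Agent.R352.LR.mem_translates f)

/-- **A gap in all representations of dimension at most `exp (n ^ (1 - δ))`.** For every `δ > 0` there
is `k₀` such that for every `k ≥ k₀` there is `ε > 0` such that the proportion of the `k`-tuples of
elements of `A_n` with the four properties `SmallGap` for `D = exp (n ^ (1 - δ))` tends to `1`. -/
theorem result (δ : ℝ) (hδ : 0 < δ) : ∃ k₀ : ℕ, ∀ k ≥ k₀, ∃ ε : ℝ, 0 < ε ∧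
    Tendsto (fun n : ℕ =>
      (Nat.card {x : Fin k → Alt n // SmallGap n (Real.exp ((n : ℝ) ^ (1 - δ))) ε x} : ℝ) /
        (Fintype.card (Alt n) : ℝ) ^ k) atTop (𝓝 1) := by
  obtain ⟨k₀, hk₀⟩ := GapAllTuples.result (δ / 2) (by positivity)
  refine ⟨k₀, fun k hk => ?_⟩
  obtain ⟨ε, hε, hlim⟩ := hk₀ k hk
  refine ⟨ε, hε, ?_⟩
  have hev : ∀ᶠ n : ℕ in atTop, ∀ x : Fin k → Alt n,
      GapAllTuples.GapUpTo n ⌊(n : ℝ) ^ (1 - δ / 2)⌋₊ ε x →
        SmallGap n (Real.exp ((n : ℝ) ^ (1 - δ))) ε x := by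
    have t1 : Tendsto (fun n : ℕ => (n : ℝ) ^ (δ / 2)) atTop atTop :=
      (tendsto_rpow_atTop (by positivity)).comp tendsto_natCast_atTop_atTop
    have t2 : Tendsto (fun n : ℕ => (n : ℝ) ^ δ) atTop atTop :=
      (tendsto_rpow_atTop hδ).comp tendsto_natCast_atTop_atTop
    filter_upwards [t1.eventually_ge_atTop 5, t2.eventually_ge_atTop 10,
      eventually_ge_atTop 10] with n h1 h2 h3 x hx
    have hn0 : (0 : ℝ) < n := by
      have : (10 : ℝ) ≤ n := by exact_mod_cast h3
      linarith
    have hn10 : (10 : ℝ) ≤ n := by exact_mod_cast h3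
    set s : ℝ := (n : ℝ) ^ (1 - δ) with hs
    have hs0 : 0 ≤ s := Real.rpow_nonneg hn0.le _
    have hlog : (0.6931471803 : ℝ) < Real.log 2 := Real.log_two_gt_d9
    have hlog0 : 0 < Real.log 2 := by linarith
    set j : ℕ := ⌊s / Real.log 2⌋₊ with hj
    have hj1 : (j : ℝ) ≤ s / Real.log 2 := Nat.floor_le (by positivity)
    have hj2 : s / Real.log 2 < j + 1 := Nat.lt_floor_add_one _
    have hj3 : 3 * (j : ℝ) ≤ 5 * s := by
      rw [le_div_iff₀ hlog0] at hj1
      nlinarith [Nat.cast_nonneg (α := ℝ) j]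
    have hD : Real.exp s < 2 ^ (j + 1) := by
      rw [div_lt_iff₀ hlog0] at hj2
      calc Real.exp s < Real.exp ((j + 1) * Real.log 2) := Real.exp_lt_exp.2 hj2
        _ = 2 ^ (j + 1) := by
          rw [mul_comm, Real.exp_mul, Real.exp_log (by norm_num)]
          exact_mod_cast Real.rpow_natCast 2 (j + 1)
    have hm : 3 * j ≤ ⌊(n : ℝ) ^ (1 - δ / 2)⌋₊ := by
      apply Nat.le_floor
      push_cast
      have e1 : (n : ℝ) ^ (1 - δ / 2) = s * (n : ℝ) ^ (δ / 2) := by
        rw [hs, ← Real.rpow_add hn0]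
        congr 1
        ring
      rw [e1]
      nlinarith
    have hn : 3 * j + 5 ≤ n := by
      have e1 : (n : ℝ) = s * (n : ℝ) ^ δ := by
        rw [hs, ← Real.rpow_add hn0]
        have : 1 - δ + δ = 1 := by ring
        rw [this, Real.rpow_one]
      have e2 : s * 10 ≤ n := by
        calc s * 10 ≤ s * (n : ℝ) ^ δ := by gcongr
          _ = n := e1.symm
      have e3 : ((3 * j + 5 : ℕ) : ℝ) ≤ (n : ℝ) := by
        push_cast
        linarith
      exact_mod_cast e3
    exact smallGap_of_funGap (funGap_of_gapUpTo hn hm hD hx)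
  refine tendsto_of_tendsto_of_tendsto_of_le_of_le' hlim tendsto_const_nhds ?_ ?_
  · filter_upwards [hev] with n hn
    apply div_le_div_of_nonneg_right _ (by positivity)
    have : Nat.card {x : Fin k → Alt n // GapAllTuples.GapUpTo n ⌊(n : ℝ) ^ (1 - δ / 2)⌋₊ ε x} ≤
        Nat.card {x : Fin k → Alt n // SmallGap n (Real.exp ((n : ℝ) ^ (1 - δ))) ε x} :=
      RC14.card_mono _ _ hn
    exact_mod_cast this
  · refine Eventually.of_forall fun n => ?_
    have hpos : (0 : ℝ) < (Fintype.card (Alt n) : ℝ) := by exact_mod_cast Fintype.card_pos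
    rw [div_le_one (by positivity)]
    have h1 : Nat.card {x : Fin k → Alt n // SmallGap n (Real.exp ((n : ℝ) ^ (1 - δ))) ε x} ≤
        Nat.card (Fin k → Alt n) :=
      Nat.card_le_card_of_injective Subtype.val Subtype.val_injective
    rw [Nat.card_eq_fintype_card (α := Fin k → Alt n), Fintype.card_fun, Fintype.card_fin] at h1
    exact_mod_cast h1

end

end Pool.Agent.Results.MP_75608d_al.SmallRepresentations
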